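import Pool.Agent.W206.YP.Stm

/-!
YP-DA: Noetherian induction.
-/

set_option autoImplicit false

namespace Pool.Agent.W915.YP.DA

open MvPolynomial Pool.Agent.W206.YP

/-- **DA**. -/
theorem main : S_DA := by
  intro σ _ P hKL
  classical
  set A : Set (Ideal (MvPolynomial σ ℂ)) := {Q | AtypI P Q} with hA
  set I : Ideal (MvPolynomial σ ℂ) := sInf A with hI
  have hfin : I.minimalPrimes.Finite := Ideal.finite_minimalPrimes_of_isNoetherianRing _ I
  have hPI : P ≤ I := le_sInf fun Q hQ => hQ.2.1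
  have hcov : ∀ Q ∈ A, ∃ p ∈ I.minimalPrimes, p ≤ Q := by
    intro Q hQ
    have hIQ : I ≤ Q := sInf_le hQ
    have : Q.IsPrime := hQ.1
    exact Ideal.exists_minimalPrimes_le hIQ
  refine ⟨hfin.toFinset, fun R hR => ?_, fun Q hQ => ?_⟩
  · rw [Set.Finite.mem_toFinset] at hR
    by_contra hRA
    have hprime : R.IsPrime := hR.1.1
    -- the claim
    have claim : ∀ x : MvPolynomial σ ℂ, (∀ Q ∈ A, R ≤ Q → x ∈ Q) → x ∈ R := by
      intro x hx
      have hno : ¬ (hfin.toFinset.erase R).inf id ≤ R := by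
        intro hle
        rw [Ideal.IsPrime.inf_le' hprime] at hle
        obtain ⟨R', hR', hle'⟩ := hle
        rw [Finset.mem_erase, Set.Finite.mem_toFinset] at hR'
        have h1 : R ≤ R' := hR.2 hR'.2.1 hle'
        exact hR'.1 (le_antisymm hle' h1)
      obtain ⟨h, hh1, hh2⟩ := SetLike.not_le_iff_exists.1 hno
      have hxh : x * h ∈ I := by
        rw [hI, Submodule.mem_sInf]
        intro Q hQ
        obtain ⟨R', hR', hle⟩ := hcov Q hQ
        by_cases e : R' = R
        · rw [e] at hle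
          exact Ideal.mul_mem_right _ _ (hx Q hQ hle)
        · have h3 : R' ∈ hfin.toFinset.erase R := by
            rw [Finset.mem_erase, Set.Finite.mem_toFinset]
            exact ⟨e, hR'⟩
          have h4 : h ∈ R' := (Finset.inf_le (f := id) h3) hh1
          exact Ideal.mul_mem_left _ _ (hle h4)
      exact (hprime.mem_or_mem (hR.1.2 hxh)).resolve_right hh2
    obtain ⟨g, hg1, hg2⟩ := hKL R hprime (hPI.trans hR.1.2) hRA
    exact hg1 (claim g fun Q hQ hle => hg2 Q hQ hle)
  · obtain ⟨p, hp, hle⟩ := hcov Q hQ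
    exact ⟨p, by rwa [Set.Finite.mem_toFinset], hle⟩

end Pool.Agent.W915.YP.DA
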